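import Mathlib
import Pool.Agent.W761.CP.Final
import Pool.Agent.Helper209.CX.C03
import Pool.Agent.Helper209.CX.K30
import Pool.Agent.Helper209.CX.K31

/-!
# Eigenvalue sums exceeding `h^{-d}` for complex potentials

For every dimension `d ≥ 1` there is one potential `V` (compactly supported, in all `L^p` with
`1 ≤ p < ∞`, real part `≥ 0`, imaginary part between `0` and `1`) such that for all `γ > 0` and
`0 ≤ σ ≤ d / 2` the sums `S_{γ,σ}(V, h) = ∑_j |E_j|^{-σ} δ(E_j)^{γ+σ}` satisfy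
`h^d S_{γ,σ}(V, h) → ∞` as `h → 0`.

`V = i 1_G + W`, where `G` is the unit cube and `W` is a real potential with a logarithmic
singularity on the boundary of `G`.
-/

namespace Pool.Agent.Results.MP_c84763_mp.EigenvalueSums
open MeasureTheory FourierTransform Filter
open scoped ENNReal Topology

/-- `ℝᵈ` with the Euclidean norm -/
def Rd (d : ℕ) : Type := EuclideanSpace ℝ (Fin d)

noncomputable instance (d : ℕ) : Norm (Rd d) :=
  (inferInstance : Norm (EuclideanSpace ℝ (Fin d)))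

/-- `ℝᵈ` carries Lebesgue measure, Mathlib's `volume` -/
noncomputable instance (d : ℕ) : MeasureSpace (Rd d) :=
  (inferInstance : MeasureSpace (EuclideanSpace ℝ (Fin d)))

/-- `L²(ℝᵈ; ℂ)` -/
def L2 (d : ℕ) : Type := Lp ℂ 2 (volume : Measure (Rd d))

noncomputable instance (d : ℕ) : AddCommGroup (L2 d) :=
  (inferInstance : AddCommGroup (Lp ℂ 2 (volume : Measure (Rd d))))

noncomputable instance (d : ℕ) : Module ℂ (L2 d) :=
  (inferInstance : Module ℂ (Lp ℂ 2 (volume : Measure (Rd d))))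

/-- the function `u` -/
noncomputable def fn {d : ℕ} (u : L2 d) : Rd d → ℂ :=
  ((show Lp ℂ 2 (volume : Measure (Rd d)) from u) : Rd d → ℂ)

/-- the unitary Fourier transform on `L²(E)`, `û(ξ) = ∫ e^{-2πi x·ξ} u(x) dx` -/
noncomputable def fourierE (E : Type) [NormedAddCommGroup E] [InnerProductSpace ℝ E]
    [FiniteDimensional ℝ E] [MeasurableSpace E] [BorelSpace E]
    (u : Lp ℂ 2 (volume : Measure E)) : Lp ℂ 2 (volume : Measure E) := 𝓕 u

/-- the unitary Fourier transform on `L²(ℝᵈ)` -/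
noncomputable def fourier {d : ℕ} (u : L2 d) : L2 d := fourierE (EuclideanSpace ℝ (Fin d)) u

/-- the function `û` -/
noncomputable def hat {d : ℕ} (u : L2 d) : Rd d → ℂ := fn (fourier u)

/-- `u ∈ H¹(ℝᵈ)`: `|ξ| û ∈ L²` -/
def InH1 {d : ℕ} (u : L2 d) : Prop := MemLp (fun ξ : Rd d => (‖ξ‖ : ℂ) * hat u ξ) 2 volume

/-- `∫ ∇u · conj ∇φ = ∫ (2π|ξ|)² û conj φ̂` -/
noncomputable def dirichlet {d : ℕ} (u φ : L2 d) : ℂ :=
  ∫ ξ : Rd d, (((2 * Real.pi * ‖ξ‖) ^ 2 : ℝ) : ℂ) * hat u ξ * (starRingEnd ℂ) (hat φ ξ)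

/-- `V u conj φ` -/
noncomputable def potential {d : ℕ} (V : Rd d → ℂ) (u φ : L2 d) (x : Rd d) : ℂ :=
  V x * fn u x * (starRingEnd ℂ) (fn φ x)

/-- the inner product `∫ f conj φ` -/
noncomputable def pairing {d : ℕ} (f φ : L2 d) : ℂ := ∫ x, fn f x * (starRingEnd ℂ) (fn φ x)

/-- `u ∈ D(H)` and `H u = f`, where `H = -h²Δ + V` is the m-sectorial operator of the form
`h² ∫ ∇u · conj ∇φ + ∫ V u conj φ` on `H¹(ℝᵈ)` -/
def IsHu {d : ℕ} (h : ℝ) (V : Rd d → ℂ) (u f : L2 d) : Prop :=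
  InH1 u ∧ ∀ φ : L2 d, InH1 φ → Integrable (potential V u φ) volume ∧
    ((h ^ 2 : ℝ) : ℂ) * dirichlet u φ + ∫ x, potential V u φ x = pairing f φ

/-- `u` is a generalised eigenvector for `E` (or `0`): `(H - E)ⁿ u = 0` for some `n` -/
def IsGen {d : ℕ} (h : ℝ) (V : Rd d → ℂ) (E : ℂ) (u : L2 d) : Prop :=
  ∃ (n : ℕ) (c : ℕ → L2 d), c 0 = u ∧ c n = 0 ∧ ∀ i < n, IsHu h V (c i) (c (i + 1) + E • c i)

/-- the generalised eigenspace of `E` -/
noncomputable def genSpace {d : ℕ} (h : ℝ) (V : Rd d → ℂ) (E : ℂ) : Submodule ℂ (L2 d) :=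
  Submodule.span ℂ {u | IsGen h V E u}

/-- the algebraic multiplicity of `E` (`0` if `E` is not an eigenvalue) -/
noncomputable def algMult {d : ℕ} (h : ℝ) (V : Rd d → ℂ) (E : ℂ) : ℕ :=
  Module.finrank ℂ (genSpace h V E)

/-- `δ(E)`, the distance from `E` to the half-line `[0,∞)` -/
noncomputable def delta (E : ℂ) : ℝ := Metric.infDist E {z : ℂ | 0 ≤ z.re ∧ z.im = 0}

/-- `S_{γ,σ}(V, h) = ∑_j |E_j|^{-σ} δ(E_j)^{γ+σ}`, each eigenvalue `E` off the half-line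
counted with its algebraic multiplicity -/
noncomputable def eigSum {d : ℕ} (h : ℝ) (V : Rd d → ℂ) (γ σ : ℝ) : ℝ≥0∞ :=
  ∑' E : ℂ, (algMult h V E : ℝ≥0∞) * ENNReal.ofReal (‖E‖ ^ (-σ) * delta E ^ (γ + σ))

/-- For every `d ≥ 1` there is a compactly supported `V` in all `L^p`, `1 ≤ p < ∞`, for which
all eigenvalues off `[0,∞)` have finite multiplicity and `h^d S_{γ,σ}(V, h) → ∞` as `h → 0+` for
all `γ > 0` and `0 ≤ σ ≤ d/2`. -/
theorem result (d : ℕ) (hd : 1 ≤ d) : ∃ V : Rd d → ℂ,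
    (∀ p : ℝ, 1 ≤ p → MemLp V (ENNReal.ofReal p) volume) ∧
    (∃ R : ℝ, ∀ x : Rd d, R < ‖x‖ → V x = 0) ∧
    (∀ x : Rd d, 0 ≤ (V x).re ∧ 0 ≤ (V x).im ∧ (V x).im ≤ 1) ∧
    (∀ h : ℝ, 0 < h → ∀ E : ℂ, 0 < delta E → Module.Finite ℂ (genSpace h V E)) ∧
    ∀ γ σ : ℝ, 0 < γ → 0 ≤ σ → σ ≤ d / 2 →
      Tendsto (fun h : ℝ => ENNReal.ofReal (h ^ (d : ℝ)) * eigSum h V γ σ) (𝓝[>] 0) (𝓝 ⊤) := by
  obtain ⟨V, hVm, hVp, hVR, hVre, hV⟩ := W761.CP.final d hd
  -- the generalised eigenspaces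
  have hGen : ∀ h : ℝ, ∃ G : ℂ → Submodule ℂ (Helper209.CX.L2d d),
      (∀ E, genSpace h V E = (show Submodule ℂ (L2 d) from G E)) ∧
      (∀ E u, u ∈ G E ↔ ∃ (n : ℕ) (c : ℕ → Helper209.CX.L2d d), c 0 = u ∧ c n = 0 ∧
          ∀ i < n, Helper209.CX.IsHu h V (c i) (c (i + 1) + E • c i)) := by
    intro h
    let R : Submodule ℂ (L2 d × L2 d) :=
      { carrier := {p | Helper209.CX.IsHu h V p.1 p.2}
        add_mem' := fun {a b} ha hb => Helper209.CX.K31.isHu_add h V a.1 b.1 a.2 b.2 ha hb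
        zero_mem' := Helper209.CX.K31.isHu_zero_zero h V
        smul_mem' := fun c a ha => Helper209.CX.K31.isHu_smul h V c a.1 a.2 ha }
    choose G hG using fun E => Helper209.CX.K30.gen_submodule R E
    refine ⟨G, fun E => ?_, fun E u => hG E u⟩
    have : {u | IsGen h V E u} = (G E : Set (L2 d)) := by
      ext u
      exact (hG E u).symm
    rw [genSpace, this]
    exact Submodule.span_eq (G E)
  have hFin : ∀ h : ℝ, 0 < h → ∀ E : ℂ, 0 < delta E → Module.Finite ℂ (genSpace h V E) := by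
    intro h hh E hE
    have hσ : (d : ℝ) / 2 < d / 2 + 1 := by linarith
    obtain ⟨C, hC, H⟩ := Helper209.CX.final_D d hd (3 / 4) (d / 2 + 1) (by norm_num)
      (by norm_num) hσ
    let R : Submodule ℂ (L2 d × L2 d) :=
      { carrier := {p | Helper209.CX.IsHu h V p.1 p.2}
        add_mem' := fun {a b} ha hb => Helper209.CX.K31.isHu_add h V a.1 b.1 a.2 b.2 ha hb
        zero_mem' := Helper209.CX.K31.isHu_zero_zero h V
        smul_mem' := fun c a ha => Helper209.CX.K31.isHu_smul h V c a.1 a.2 ha }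
    have hR : ∀ f : L2 d, ((0 : L2 d), f) ∈ R → f = 0 := fun f hf =>
      Helper209.CX.K31.isHu_zero h V f hf
    choose G hG using fun E => Helper209.CX.K30.gen_submodule R E
    have hspan : ∀ E, genSpace h V E = G E := by
      intro E
      have : {u | IsGen h V E u} = (G E : Set (L2 d)) := by
        ext u
        exact (hG E u).symm
      rw [genSpace, this, Submodule.span_eq]
    have hdp : (1 : ℝ) ≤ 3 / 4 + d / 2 := by
      have : (1 : ℝ) ≤ d := by exact_mod_cast hd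
      linarith
    have key := Helper209.CX.K30.gen_bound R hR
      (fun E => ‖E‖ ^ (-((d : ℝ) / 2 + 1)) * delta E ^ (3 / 4 + ((d : ℝ) / 2 + 1)))
      (fun E => mul_nonneg (Real.rpow_nonneg (norm_nonneg _) _)
        (Real.rpow_nonneg Metric.infDist_nonneg _))
      (C * h ^ (-(d : ℝ)) * ∫ x, ‖V x‖ ^ ((3 / 4 : ℝ) + d / 2))
      (fun N u A hli hu => H h hh V (hVp _ hdp) N u A hli hu) G hG
    rw [hspan]
    refine key.1 E ?_
    have hE0 : E ≠ 0 := by
      rintro rfl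
      have : delta 0 = 0 := Metric.infDist_zero_of_mem (by simp)
      exact absurd hE (by rw [this]; exact lt_irrefl 0)
    exact mul_pos (Real.rpow_pos_of_pos (norm_pos_iff.2 hE0) _) (Real.rpow_pos_of_pos hE _)
  refine ⟨V, hVp, hVR, hVre, hFin, fun γ σ hγ hσ hσd => ?_⟩
  obtain ⟨c', hc', hV⟩ := hV γ σ hγ hσ hσd
  rw [ENNReal.tendsto_nhds_top_iff_nat]
  intro n
  obtain ⟨K, hK⟩ := exists_nat_gt (((n : ℝ) + 1) / c')
  obtain ⟨h₀, hh₀, hV⟩ := hV K
  have hev : ∀ᶠ h : ℝ in 𝓝[>] 0, 0 < h ∧ h < h₀ :=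
    Ioo_mem_nhdsGT hh₀
  filter_upwards [hev] with h hh
  obtain ⟨G, hG1, hG2⟩ := hGen h
  have h1 := hV h hh.1 hh.2 G hG2 (fun E hE => by
    have := hFin h hh.1 E hE
    rw [hG1] at this
    exact this)
  have h2 : ENNReal.ofReal (c' * K * h ^ (-(d : ℝ))) ≤ eigSum h V γ σ := by
    refine h1.trans (le_of_eq ?_)
    unfold eigSum algMult
    refine tsum_congr fun E => ?_
    rw [hG1]
    rfl
  have h3 : ENNReal.ofReal (c' * K) ≤ ENNReal.ofReal (h ^ (d : ℝ)) * eigSum h V γ σ := by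
    refine le_trans ?_ (mul_le_mul_right h2 _)
    rw [← ENNReal.ofReal_mul (Real.rpow_nonneg hh.1.le _)]
    apply ENNReal.ofReal_le_ofReal
    have h4 : h ^ (d : ℝ) * (c' * K * h ^ (-(d : ℝ))) = c' * K := by
      rw [Real.rpow_neg hh.1.le]
      have : h ^ (d : ℝ) ≠ 0 := (Real.rpow_pos_of_pos hh.1 _).ne'
      field_simp
    rw [h4]
  refine lt_of_lt_of_le ?_ h3
  have h5 : (n : ℝ) < c' * K := by
    rw [div_lt_iff₀ hc'] at hK
    linarith
  rw [← ENNReal.ofReal_natCast]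
  exact (ENNReal.ofReal_lt_ofReal_iff_of_nonneg (Nat.cast_nonneg n)).2 h5

end Pool.Agent.Results.MP_c84763_mp.EigenvalueSums
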